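import Pool.Agent.Run7.h902.CzBr

/-!
# MP_17a657_ag: the Tate conjecture for divisors over finitely generated fields is a question on moduli
surfaces of configurations of points over the prime fields

Fix a characteristic `p` (zero or a prime number) and a prime number `ℓ ≠ p`. By the Kummer sequence the
assertion for a smooth projective variety `X` over a finitely generated field `k` is
`B k X = V_ℓ(Br(X ⊗ k^s))^{G_k} = 0`, and this group is a birational invariant (Tate).

`FrameModuli k₀ A`: `Spec A` is a moduli space over the prime field `k₀` of configurations of points in the
projective plane: the points `(1:0:0)`, `(0:1:0)`, `(0:0:1)`, `(1:1:1)` and finitely many points moving in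
given Schubert cells `(1:x:y)`, `(0:1:y)`, `(0:0:1)`, such that every triple of points is prescribed to be
collinear or not collinear: the realization space of a matroid of rank `3` modulo `PGL_3`.

Theorem: the Tate conjecture for divisors for all smooth projective varieties over all finitely
generated fields of characteristic `p` is equivalent to `V_ℓ(Br(U ⊗ k₀^s))^G = 0` for the smooth integral
realization spaces `U` over the prime field `k₀` of dimension at most `2`.

Proof. The reduction to surfaces over finite extensions of the prime field is known (André, Ambrosi,
de Jong, Morrow, Lefschetz). Every integral scheme of finite type over `k₀` has a dense open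
subscheme which is ISOMORPHIC to a smooth realization space without further fixed points (an exact
form of the universality theorem of Mnev, proved in `CuRing`, `CuGad`, `CuMain`, `CbOpen`).
-/

set_option autoImplicit false

open CategoryTheory AlgebraicGeometry Pool.Agent.Y116.UV Pool.Agent.Run7.h902

namespace Pool.Agent.Results.MP_17a657_ag.ConfigurationSurfaces

/-- **Theorem.** Let `p` be zero or a prime number, `k₀` the prime field of characteristic `p`. The Tate
conjecture for divisors is true for all smooth projective varieties over all finitely generated fields of
characteristic `p` if and only if `V_ℓ(Br(U ⊗ k₀^s))^G = 0` for the smooth integral moduli spaces `U` over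
`k₀` of dimension at most `2` of configurations of points in the plane containing the frame. -/
theorem result {p : ℕ} (F : Cz.BrauerData p) (k₀ : Type) [Field k₀] [CharP k₀ p]
    (hk : Cu.IntFrac k₀) :
    (∀ (k : Type) [Field k] [CharP k p], Cz.FinGen k → ∀ X : Sch k, Cw.SmoothProjective X →
      F.surj k X) ↔
    ∀ (A : Type) [CommRing A] [Algebra k₀ A] [Algebra.FiniteType k₀ A], IsDomain A →
      Algebra.Smooth k₀ A → Cx.FrameModuli k₀ A → ringKrullDim A ≤ (2 : ℕ) →
        Subsingleton (F.B k₀ (aff k₀ A)) :=
  Cz.brauer_iff F k₀ hk

end Pool.Agent.Results.MP_17a657_ag.ConfigurationSurfaces
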