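import Pool.Agent.Run7.h905.DK.Du
import Pool.Agent.Run7.h316.EQ.Ext

/-!
# The Tate conjecture for divisors for almost all surfaces in Dickson pencils, over all number fields at
# once: prime coefficients, dominated, metric and random families

Let `n = 2 g + 1 ≥ 3` be odd, `E` a number field containing `c = ζ + ζ⁻¹`, `ζ` a primitive `n`-th root of unity
(for `n = 3` this is no condition, `c = -1`), `δ` in `E` not zero, and `D_n(x) = D_n(x, δ)` the Dickson
polynomial, `D_n(u + δ / u) = u ^ n + (δ / u) ^ n`. For `b` in `E[t]` let `Q = D_n(b) - t` and let `X_b` be the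
surface

  `Q(t) y ^ 2 = D_n(x) - t`,

fibred over the line with coordinate `t` in hyperelliptic curves of genus `g` (for `n = 3` all elliptic
surfaces `Q y ^ 2 = x ^ 3 + α x - t`, `Q = b ^ 3 + α b - t`, `α ≠ 0`), and `A` the Jacobian of its generic fibre. On
`X_b` there are the curves `h_j(x) = 0, y = 1`: `h_0 = x - b`, `h_j = x ^ 2 - c_j b x + b ^ 2 + δ (c_j ^ 2 - 4)`,
`c_j = ζ ^ j + ζ ^ (-j)`, `1 ≤ j ≤ g`.

Let `K` be a number field, `ω` a basis of its ring of integers, `m ≥ 1`. A vector `x` of integers gives `m + 1`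
integers of `K`, the coefficients of `b`. It `Works` for a finite extension `E` of `K`, `g`, `c` and `δ`, if `b` has
degree `m` and

(a) over ALL the fields `K' = k'(t)`, `k'` an arbitrary extension field of `E` in which the elements algebraic
over `E` have degree prime to `2 n m` over `E` (for example `k' = E(s_1, …, s_r)`): `Q` is irreducible,
`A(K')[2] = 0`, `A(K') / 2 A(K')` has `2 ^ g` elements and is generated by the classes of the `g + 1` curves,
the only relation being that the sum of all is zero, the rank of `A(K')` is exactly `g`, and the 2-primary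
part of the Tate-Shafarevich group is zero (`GoodOverAll`);

(b) there is a prime of degree one of `E`, of a characteristic not dividing `2 n`, with `c` and `δ` integral and
`δ` a unit there, such that (a) is true for the reduction of `b` (of degree `m` too) over `F_p` and all the
perfect fields `k'` containing `F_p` in which the algebraic elements have degree prime to `2 n m`.

**Theorem.** Let `Usually` be the property of a family of integral vectors `v w`, `w ∈ Ω`, along finite sets
`S M ⊂ Ω`, that for ALL finite extensions `E` of `K` in an algebraic closure, ALL `g` and ALL `c`, `δ` the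
proportion of the `w ∈ S M` for which `v w` does not `Work` tends to zero, `M → ∞`. This property is robust
(`Pool.Agent.Run7.h316.EQ.Robust`): all dominated families have it (in particular boxes, so 100 percent of
all `b` in `O_K[t]` of degree `m`, all equidistributed sequences and their subfamilies of positive lower
density), metric sequences for almost all parameters, random orbits of groups of integral matrices,
generalised polynomials at the integers and at the primes, and the vectors of PRIME coefficients.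

Consequence (not formalised): the Tate conjecture for divisors at ALL primes `ℓ` for `X_b` over `E`. At the
prime of (b) the divisor `Q (t ^ 2 - 4 δ ^ n) = 0` remains étale and the fibration is tame at infinity (`p` does
not divide `2 n`), so `dim H ^ 1(P ^ 1, j_* R ^ 1 π_* ℚ_ℓ(1)) ^ (G_E)` is at most the corresponding dimension
over `F_p`, which is the rank of `A(F_p(t))`, i.e. `g`, by Artin, Tate and Milne, as Sha[2^∞] is finite; and the
rank of `A(E(t))` is `g`.

Proof. Criterion and theorem of Chebotarev type for the pencils over finite fields: `MP_72e2e6_nt.DicksonPencils`,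
here without the roots of unity themselves (`MP_1bdb59_nt.AlmostAllDicksonPencils`). The conditions are tested
modulo the primes of degree one of `E(ζ_{n m})`, where a positive proportion of the residue vectors pass the
test; so the set of vectors which do not work is very null (helper316's `VeryNull`). Families: the library
`Pool.Agent.Run7.h316.EQ` with the libraries of helpers 24, 344, 617, 199, 764, 432, 286, 123, 195, 300, 543,
765, 666, 918, 923 named there.
-/

set_option autoImplicit false
set_option linter.all false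

open Polynomial NumberField
open scoped Classical

namespace Pool.Agent.Results.MP_17a657_ag.RobustDicksonSurfaces

open Pool.Agent.Y713.Jac (J CoordRing)
open Pool.Agent.N352.Sha (ShaTrivial)
open Pool.Agent.Results.MP_60d5ce_nt.TwistsByPrimes (IsClass)
open Pool.Agent.Run7.h316.EQ (Robust)

section defs

/-- `c = ζ + ζ⁻¹` for a primitive `n`-th root of unity `ζ` of an extension of `k` (`n` not zero in `k`):
`x ^ 2 - c x + 1` divides the `n`-th cyclotomic polynomial. -/
def IsCos {k : Type} [Field k] (n : ℕ) (c : k) : Prop := X ^ 2 - C c * X + 1 ∣ cyclotomic n k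

/-- The polynomial `Q = D_n(b, δ) - t`. -/
noncomputable def Q {k : Type} [Field k] (n : ℕ) (δ : k) (b : k[X]) : k[X] :=
  (dickson 1 δ n).comp b - X

/-- The polynomial `h = x ^ 2 - a b x + b ^ 2 + δ (a ^ 2 - 4)`. -/
noncomputable def quadratic {k : Type} [Field k] (a δ : k) (b : k[X]) : k[X][X] :=
  X ^ 2 - C (C a * b) * X + C (b ^ 2 + C (δ * (a ^ 2 - 4)))

/-- The factors `h_0 = x - b` and `h_j = x ^ 2 - c_j b x + b ^ 2 + δ (c_j ^ 2 - 4)`,
`c_j = ζ ^ j + ζ ^ (-j) = D_j(c, 1)`, `c = ζ + ζ⁻¹`, `1 ≤ j ≤ g`. -/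
noncomputable def factors {k : Type} [Field k] (g : ℕ) (c δ : k) (b : k[X]) : Fin (g + 1) → k[X][X] :=
  Fin.cons (X - C b) fun j : Fin g => quadratic ((dickson 1 (1 : k) ((j : ℕ) + 1)).eval c) δ b

variable {k : Type} (K : Type) [Field k] [Field K] [Algebra k[X] K]

/-- The monic polynomial over `K` whose zeros are those of `h` multiplied by `Q`. -/
noncomputable def scale (Q : k[X]) (h : k[X][X]) : K[X] :=
  (h.map (algebraMap k[X] K)).scaleRoots (algebraMap k[X] K Q)

/-- The polynomial `F` such that `C_b : Q y ^ 2 = D_n(x) - t` is isomorphic to `Y ^ 2 = F(X)` by `X = Q x`,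
`Y = Q ^ ((n + 1) / 2) y`. -/
noncomputable def model (n : ℕ) (δ : k) (b : k[X]) : K[X] :=
  scale K (Q n δ b) ((dickson 1 δ n).map C - C X)

/-- The Jacobian `J` of `y ^ 2 = F(x)` over `K` has no `K`-rational point of order two, the group
`J(K) / 2 J(K)` has `2 ^ r` elements, and the rank of `J(K)` is `r` if `J(K)` is finitely generated. -/
structure RankIs {K : Type} [Field K] (F : K[X]) (r : ℕ) : Prop where
  torsion : ∀ P : J 2 F K, P ^ 2 = 1 → P = 1
  index : (powMonoidHom 2 : J 2 F K →* J 2 F K).range.index = 2 ^ r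
  rank : Group.FG (J 2 F K) → Module.finrank ℤ (Additive (J 2 F K)) = r

/-- The product of the `P_j`, `j ∈ S`, is a square only for the empty set and for the set of all
indices. -/
def OnlyRelation {G : Type} [CommGroup G] {m : ℕ} (P : Fin m → G) : Prop :=
  ∀ S : Finset (Fin m), (∃ R, ∏ j ∈ S, P j = R ^ 2) ↔ S = ∅ ∨ S = Finset.univ

/-- The `P_j` generate the group modulo squares. -/
def GenerateModSquares {G : Type} [CommGroup G] {m : ℕ} (P : Fin m → G) : Prop :=
  ∀ x, ∃ (S : Finset (Fin m)) (R : G), x = (∏ j ∈ S, P j) * R ^ 2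

/-- The classes `P_j` of the divisors `p_j(x) = 0, y = c(x)` generate `J(K)` modulo `2 J(K)`, `J` the
Jacobian of `y ^ 2 = F(x)`, and the only relation is that the sum of all of them is zero. -/
def HasBasis {K : Type} [Field K] (F c : K[X]) {m : ℕ} (p : Fin m → K[X]) : Prop :=
  ∃ P : Fin m → J 2 F K, (∀ j, IsClass F (p j) c (P j)) ∧ GenerateModSquares P ∧ OnlyRelation P

/-- The classes in `A(K)`, `A` the Jacobian of `C_b`, of the divisors `h_j(x) = 0, y = 1`, i.e.
`Y = Q ^ (g + 1)`, generate `A(K)` modulo `2 A(K)`, and the only relation is that the sum of all of them is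
zero. -/
def Basis (g : ℕ) (c δ : k) (b : k[X]) : Prop :=
  HasBasis (model K (2 * g + 1) δ b) (C (algebraMap k[X] K (Q (2 * g + 1) δ b) ^ (g + 1)))
    fun j => scale K (Q (2 * g + 1) δ b) (factors g c δ b j)

/-- For the Jacobian `A` of `C_b`, `n = 2 g + 1`: `Q` is irreducible, `A(K)` has no element of order two,
`A(K) / 2 A(K)` has `2 ^ g` elements, the rank is `g` if `A(K)` is finitely generated, the classes of the
divisors `h_j(x) = 0, y = 1` generate `A(K) / 2 A(K)`, the only relation is that
the sum of all of them is zero, and the 2-primary part of the Tate-Shafarevich group is zero: every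
continuous cocycle of the absolute Galois group of `K` with values in `A(K^sep)` whose class is of 2-power
order and zero over the completions of `K` at all the places except possibly `t = ∞` is a coboundary. -/
structure Good [IsFractionRing k[X] K] (g : ℕ) (c δ : k) (b : k[X]) : Prop where
  prime : Irreducible (Q (2 * g + 1) δ b)
  rank : RankIs (model K (2 * g + 1) δ b) g
  basis : Basis K g c δ b
  sha : ShaTrivial 2 (model K (2 * g + 1) δ b) k[X]

/-- Every element of `k'` that is algebraic over `k` has degree prime to `N` over `k`. -/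
def Tame (N : ℕ) (k k' : Type) [Field k] [Field k'] [Algebra k k'] : Prop :=
  ∀ x : k', IsIntegral k x → Nat.Coprime N (minpoly k x).natDegree

/-- `b` is of degree `m` and `Good` over the fields `k'(t)` for all the perfect extension fields `k'` of `k` in
which the elements algebraic over `k` have degree prime to `2 n m`, `n = 2 g + 1`. -/
def GoodOverAll (g m : ℕ) (c δ : k) (b : k[X]) : Prop :=
  b.natDegree = m ∧ ∀ (k' K' : Type) [Field k'] [PerfectField k'] [Algebra k k'] [Field K']
    [Algebra k'[X] K'] [IsFractionRing k'[X] K'], Tame (2 * ((2 * g + 1) * m)) k k' →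
    Good K' g (algebraMap k k' c) (algebraMap k k' δ) (b.map (algebraMap k k'))

end defs

section family

/-- `x` in the number field `E` is integral at the kernel of `φ`, and `y` is its residue. -/
def Reduces {E F : Type} [Field E] [Field F] (φ : 𝓞 E →+* F) (x : E) (y : F) : Prop :=
  ∃ a s : 𝓞 E, φ s ≠ 0 ∧ x * algebraMap (𝓞 E) E s = algebraMap (𝓞 E) E a ∧ φ a = y * φ s

variable {K : Type} [Field K] {I : Type} [Fintype I] (ω : Module.Basis I ℤ (𝓞 K))

/-- The polynomial `b` over the field `F` with the coefficients `φ (∑ x_(i,j) ω_j)`, `0 ≤ i ≤ m`. -/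
noncomputable def poly {F : Type} [Field F] (φ : 𝓞 K →+* F) {m : ℕ} (x : Fin (m + 1) × I → ℤ) : F[X] :=
  ∑ i, C (φ (∑ j, x (i, j) • ω j)) * X ^ (i : ℕ)

/-- `b` is `GoodOverAll` over `E`, and so is its reduction at some prime of degree one of `E`. -/
structure Works (E : Type) [Field E] [Algebra K E] (g m : ℕ) (c δ : E) (x : Fin (m + 1) × I → ℤ) :
    Prop where
  good : GoodOverAll g m c δ (poly ω ((algebraMap K E).comp (algebraMap (𝓞 K) K)) x)
  reduction : ∃ (p : ℕ) (_ : Fact p.Prime) (φ : 𝓞 E →+* ZMod p) (c' δ' : ZMod p), (2 : ZMod p) ≠ 0 ∧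
    ((2 * g + 1 : ℕ) : ZMod p) ≠ 0 ∧ Reduces φ c c' ∧ Reduces φ δ δ' ∧ δ' ≠ 0 ∧
    GoodOverAll g m c' δ' (poly ω (φ.comp (RingOfIntegers.mapRingHom (algebraMap K E))) x)

/-- For all finite extensions `E` of `K` in the algebraic closure, all `g ≥ 1`, all `c = ζ + ζ⁻¹` and all
`δ ≠ 0` in `E` the proportion of the `w` in `S M` for which `v w` does not `Work` tends to zero, `M → ∞`. -/
def Usually (m : ℕ) (Ω : Type) (S : ℕ → Finset Ω) (v : Ω → Fin (m + 1) × I → ℤ) : Prop :=
  ∀ E : IntermediateField K (AlgebraicClosure K), FiniteDimensional K E → ∀ (g : ℕ) (c δ : E), 1 ≤ g →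
    IsCos (2 * g + 1) c → δ ≠ 0 → ∀ ε : ℝ, 0 < ε → ∃ M₀ : ℕ, ∀ M : ℕ, M₀ ≤ M →
      (({w : Ω | w ∈ S M ∧ ¬ Works ω E g m c δ (v w)}.ncard : ℕ) : ℝ) ≤ ε * (S M).card

end family

open Run7.h905.DK Run7.h905.BS

theorem good_of {k : Type} (K : Type) [Field k] [PerfectField k] [Field K] [Algebra k[X] K]
    [IsFractionRing k[X] K] {g : ℕ} {c δ : k} {b : k[X]} (h2 : (2 : k) ≠ 0)
    (hn : ((2 * g + 1 : ℕ) : k) ≠ 0) (hg : 1 ≤ g)
    (hc : IsCos (2 * g + 1) c) (hδ : δ ≠ 0) (hb : 1 ≤ b.natDegree)
    (hQ : Irreducible (Q (2 * g + 1) δ b))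
    (hns : ∀ j : Fin g, ∀ w : k[X], ¬ Q (2 * g + 1) δ b ∣
      C (cc c (j + 1) ^ 2 - 4) * (b ^ 2 - C (4 * δ)) - w ^ 2) : Good K g c δ b := by
  obtain ⟨⟨P, h1, h3, h4⟩, h5, h6⟩ := critC K h2 hn hg hc hδ hb hQ hns
  refine ⟨hQ, ⟨h5.torsion, h5.index, h5.rank⟩, ⟨P, ?_, ?_, ?_⟩, h6⟩
  · intro j
    obtain ⟨hD, hne, hcl⟩ := h1 j
    have ec : C (algebraMap k[X] K (QD δ (2 * g + 1) b) ^
        (((fa (D δ (2 * g + 1))).natDegree + 1) / 2)) * (((1 : k[X][X])).map (algebraMap k[X] K)).comp
          (C (algebraMap k[X] K (QD δ (2 * g + 1) b))⁻¹ * X) =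
        C (algebraMap k[X] K (Q (2 * g + 1) δ b) ^ (g + 1)) := by
      rw [Polynomial.map_one, one_comp, mul_one, fa_deg (by rw [D_deg δ (by omega)]; omega),
        D_deg δ (by omega)]
      have e1 : (2 * g + 1 + 1) / 2 = g + 1 := by omega
      rw [e1]
      rfl
    have h7 : IsClass (model K (2 * g + 1) δ b) (scale K (Q (2 * g + 1) δ b) (factors g c δ b j))
        (C (algebraMap k[X] K (QD δ (2 * g + 1) b) ^
          (((fa (D δ (2 * g + 1))).natDegree + 1) / 2)) * (((1 : k[X][X])).map (algebraMap k[X] K)).comp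
            (C (algebraMap k[X] K (QD δ (2 * g + 1) b))⁻¹ * X)) (P j) := ⟨hD, hne, hcl⟩
    rw [ec] at h7
    exact h7
  · intro x
    obtain ⟨S, -, R, hR⟩ := h4 x
    exact ⟨S, R, hR⟩
  · intro S
    exact h3 S (Finset.subset_univ S)

theorem goodOverAll_of {k : Type} [Field k] [PerfectField k] {g m : ℕ} {c δ : k} {b : k[X]}
    (h2 : (2 : k) ≠ 0) (hn : ((2 * g + 1 : ℕ) : k) ≠ 0) (hg : 1 ≤ g) (hm : 1 ≤ m)
    (hc : IsCos (2 * g + 1) c) (hδ : δ ≠ 0) (h : NiceC g m c δ b) : GoodOverAll g m c δ b := by
  refine ⟨h.deg, ?_⟩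
  intro k' K' _ _ _ _ _ _ ht
  obtain ⟨h5, h6⟩ := niceC_ext hg hm h k' ht
  refine good_of K' ?_ ?_ hg (cos_map _ hc) ((_root_.map_ne_zero (algebraMap k k')).2 hδ) ?_ h5 h6
  · rw [← map_ofNat (algebraMap k k') 2]
    exact (_root_.map_ne_zero (algebraMap k k')).2 h2
  · rw [← map_natCast (algebraMap k k')]
    exact (_root_.map_ne_zero (algebraMap k k')).2 hn
  · rw [natDegree_map, h.deg]
    exact hm

theorem works_of {K : Type} [Field K] [NumberField K] {I : Type} [Fintype I]
    (ω : Module.Basis I ℤ (𝓞 K)) (E : Type) [Field E] [NumberField E] [Algebra K E] {g m : ℕ}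
    (hg : 1 ≤ g) (hm : 1 ≤ m) {c δ : E} (hc : IsCos (2 * g + 1) c) (hδ : δ ≠ 0)
    {x : Fin (m + 1) × I → ℤ} (h : NiceC g m c δ (polE ω E m x) ∧ NiceRed ω E g m c δ x) :
    Works ω E g m c δ x := by
  refine ⟨?_, ?_⟩
  · refine goodOverAll_of two_ne_zero ?_ hg hm hc hδ h.1
    rw [Nat.cast_ne_zero]
    omega
  · obtain ⟨p, hp, φ, c', δ', h1, h2, h3, h4, h5, h6, h7⟩ := h.2
    exact ⟨p, hp, φ, c', δ', h1, h2, h3, h4, h5, goodOverAll_of h1 h2 hg hm h6 h5 h7⟩

/-- **Robustness.** -/
theorem result (K : Type) [Field K] [NumberField K] (I : Type) [Fintype I] [DecidableEq I]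
    (ω : Module.Basis I ℤ (𝓞 K)) (m : ℕ) (hm : 1 ≤ m) : Robust (Usually ω m) := by
  haveI : Nonempty I := ω.index_nonempty
  refine Pool.Agent.Run7.h316.EQ.robust_ext (K := K) (ι := Fin (m + 1) × I)
    (fun E _ => ℕ × E × E) (fun E _ _ => inferInstance)
    (fun E _ _ t x => 1 ≤ t.1 → IsCos (2 * t.1 + 1) t.2.1 → t.2.2 ≠ 0 →
      Works ω E t.1 m t.2.1 t.2.2 x) ?_ _ ?_
  · intro E _ _ _ t
    obtain ⟨g, c, δ⟩ := t
    apply Pool.Agent.Run7.h316.EQ.VeryNull.strong
    by_cases h : 1 ≤ g ∧ IsCos (2 * g + 1) c ∧ δ ≠ 0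
    · refine Pool.Agent.Run7.h316.EQ.VeryNull.mono ?_ (veryNull_main ω E g m h.1 hm h.2.1 h.2.2)
      intro x hx hcon
      exact hx fun _ _ _ => works_of ω E h.1 hm h.2.1 h.2.2 hcon
    · refine Pool.Agent.Run7.h316.EQ.VeryNull.mono ?_ Pool.Agent.Run7.h316.EQ.veryNull_empty
      intro x hx
      exact absurd (fun h1 h2 h3 => absurd ⟨h1, h2, h3⟩ h) hx
  · intro Ω S v hR E hE g c δ hg hc hδ ε hε
    obtain ⟨M₀, hM₀⟩ := hR E hE (g, c, δ) ε hε
    refine ⟨M₀, fun M hM => le_trans ?_ (hM₀ M hM)⟩
    refine Nat.cast_le.2 (Set.ncard_le_ncard ?_ ((S M).finite_toSet.subset fun w hw => hw.1))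
    rintro w ⟨h1, h2⟩
    exact ⟨h1, fun h => h2 (h hg hc hδ)⟩

end Pool.Agent.Results.MP_17a657_ag.RobustDicksonSurfaces
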