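import Mathlib
import Pool.Agent.N140.RO.Pb
import Pool.Agent.Run7.h316.EQ.Sv
import Pool.Agent.Run7.h316.EQ.Ext

/-!
# The Tate conjecture at 2 for pullbacks of all rational elliptic surfaces with a section of order two and
# rational bad fibres: prime coefficients and all dominated families, over all number fields at once

Let `K` be a number field, `ω` a basis of its ring of integers, `n ≥ 5` odd. The coordinates of the
coefficients of two polynomials `q`, `r` of degree at most `n` over the ring of integers form a vector `c` of
integers. Let `k'` be a finite extension of `K` and let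

`E₀ : y² = x (x² + a x + b)`

be a rational elliptic surface over `k'(s)` with a section of order two: `a`, `b` are polynomials over `k'` of
degrees at most `2` and `4` (every such surface has an equation of this form), neither `b` nor
`d = a² - 4 b` is a constant times a square, and `b d` is a product of linear polynomials over `k'` (`Base`).
Nothing is assumed on the points of `E₀`. Let `E` be the pullback of `E₀` by `s = q(t) / r(t)`, a simply
connected elliptic surface over the projective line; its geometric genus tends to infinity with `n`.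

The vector `c` is good for `E₀` over `k'` (`GoodOver`, the notion of the files `RandomPullbacks` and
`MetricPullbacks`) if `q`, `r` are coprime, all the forms of the bad places are irreducible of degree `n`, and
for EVERY extension field `L` of `k'` such that for each element of `L` which is algebraic over `k'` the Galois
group of its minimal polynomial over `k'` is solvable (or more generally if the elements of `L` which are
algebraic over `k'` lie in a normal extension of `k'` over which none of the forms splits into linear
factors) the Tate conjecture for divisors at the prime 2 holds for the surface over `L` (`TateQ 2`).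

Let `c w`, `w ∈ Ω`, be a family of vectors and `S M ⊂ Ω` finite sets; `Usually`: for ALL finite extensions `k'`
of `K` in an algebraic closure and ALL `E₀` over `k'` the proportion of the `w ∈ S M` for which `c w` is not
good for `E₀` over `k'` tends to zero, `M → ∞`.

**Theorem.** The property `Usually` is robust (`Pool.Agent.Run7.h316.EQ.Robust`):

(1) All dominated families have it: there are `C`, `A`, `M` such that for all squarefree `q'` prime to `M` at
most the proportion `C (q' / φ(q')) ^ A q' ^ (-ρ) + o(1)` of the vectors is in a given class modulo `q'`, where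
`ρ` is the number of the coordinates. (All equidistributed sequences, along arbitrary sets of times, are
dominated, and all their subfamilies of positive lower density.)
(2) - (4) Metric sequences: `(⌊f_{i,l}(x_i)⌋)_i` for Koksma sequences `f_{i,0}, f_{i,1}, …`,
`(⌊a_{i,l} x_i⌋)_i` for arbitrary sequences of different integers (or of real numbers with a gap) and
`(⌊ξ_i x_i ^ (k_l)⌋)_i`, for almost all `x`.
(5) Random orbits of groups of integral matrices of determinant one which generate `SL(ℤ/q')` for all `q'`
prime to some number (all Zariski dense groups, possibly of infinite index).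
(6) Generalised polynomials `(⌊∑_t a_{i,t} l ^ t⌋)_i` at the integers and at the primes `l` of `(M, 2M]`.
(7) PRIME COEFFICIENTS: the vectors of prime numbers `≤ M`.

Proof. Local criterion of helper181 (`MP_1bad5e_ag.RationalSurfacePullbacks`) with the library of helper601;
each of its finitely many conditions is satisfied by a positive proportion of the residue vectors modulo the
large primes of degree one of `k'` (compare helper140, `RandomPullbacks`), so the set of the vectors which are
not good is very null (`Pool.Agent.Run7.h316.EQ.VeryNull`): for all `D`, `η > 1` and `ε > 0` there is a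
squarefree number `q'` prime to `D` with `q' ≤ η φ(q')` such that at most the proportion `ε` of the classes
modulo `q'` contain elements of it. Metric sequences: `Pool.Agent.N24.KM` (helpers 24, 344, 617, 199, 764, 432,
286); random orbits: `Pool.Agent.N24.RW` (helpers 24, 123, 195, 300, 543, 765); generalised polynomials:
`Pool.Agent.N666.TM` (helper666); `Pool.Agent.N918.EQ` (helper918); primes: the prime number theorem for
arithmetic progressions (helper923).
-/

set_option autoImplicit false

namespace Pool.Agent.Results.MP_17a657_ag.RobustPullbacks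

open Polynomial NumberField Pool.Agent.N140.RO Pool.Agent.N140.RO.Pb Pool.Agent.Run7.h316.EQ

/-- The coordinates of the coefficients of the pair `(q, r)`. -/
abbrev Ix (n : ℕ) (J : Type) : Type := (Fin (n + 1) ⊕ Fin (n + 1)) × J

section

variable {K : Type} [Field K] {J : Type} [Fintype J] (ω : Module.Basis J ℤ (𝓞 K)) {n : ℕ}

/-- The polynomial `q` over the ring of integers with the coordinates `c`. -/
noncomputable def polQ (c : Ix n J → ℤ) : K[X] :=
  ∑ j : Fin (n + 1), C (algebraMap (𝓞 K) K (vec ω c (Sum.inl j))) * X ^ (j : ℕ)

/-- The polynomial `r` over the ring of integers with the coordinates `c`. -/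
noncomputable def polR (c : Ix n J → ℤ) : K[X] :=
  ∑ j : Fin (n + 1), C (algebraMap (𝓞 K) K (vec ω c (Sum.inr j))) * X ^ (j : ℕ)

/-- The vector `c` is good for the base given by `(a, b)` over the extension `E` of `K`. -/
def GoodOver (E : Type) [Field E] [Algebra K E] (a b : E[X]) (c : Ix n J → ℤ) : Prop :=
  Good E n a b ((polQ ω c).map (algebraMap K E)) ((polR ω c).map (algebraMap K E))

end

open Pool.Agent.X243.Gen Pool.Agent.N181.P3 in
theorem very {K : Type} [Field K] {J : Type} [Fintype J] (ω : Module.Basis J ℤ (𝓞 K)) {n : ℕ}
    (hn : 5 ≤ n) (hodd : ¬ 2 ∣ n) (E : Type) [Field E] [NumberField E] [Algebra K E] {a b : E[X]}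
    (hB : Pb.Base a b) : VeryNull {c : Ix n J → ℤ | ¬ GoodOver ω E a b c} := by
  classical
  have hD' : (0 : ℝ) < ((Pool.Agent.X243.Sol.DD n * Pool.Agent.X243.Sol.DD n : ℕ) : ℝ) := by
    have h1 : 0 < Pool.Agent.X243.Sol.DD n := by
      have := Pool.Agent.X243.Sol.D3_pos n
      unfold Pool.Agent.X243.Sol.DD
      have h3 : 0 < 4 * n := by omega
      positivity
    exact_mod_cast Nat.mul_pos h1 h1
  obtain ⟨D, μ, ρ, hD, hρ⟩ := exists_roots (R := 𝓞 E) (mul_ne_zero hB.rat.hb0 hB.rat.hd0)
  refine Sv.veryNull_of (σ := Option (Idx μ × Fin 3)) (fun s => {c : Ix n J → ℤ |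
      ∀ P ∈ Two2.Big E (2 * n + 2) D,
      (fun i => Ideal.Quotient.mk P (algebraMap (𝓞 K) (𝓞 E) (vec ω c i))) ∉
        Lev n (cl D) (cm ρ) none (some none) s P}) _ (fun s => ?_) ?_
  · refine Sv.very_sieve2 ω (2 * n + 2) hD
      (fun P => Lev n (cl D) (cm ρ) none (some none) s P)
      (δ := 1 / ((Pool.Agent.X243.Sol.DD n * Pool.Agent.X243.Sol.DD n : ℕ) : ℝ)) (by positivity)
      (fun P hP => ?_)
    have h1 := Lev_card' (by omega : 3 ≤ n) (cl D) (cm ρ) none (some none) s hP.1.1 hP.1.2.1
      hP.1.2.2.1 (cl_ne ρ hP.1.1 hP.2) (cl_det D ρ hP.1.1)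
    have hc : Fintype.card (Fin (n + 1) ⊕ Fin (n + 1)) = 2 * n + 2 := by
      rw [Fintype.card_sum, Fintype.card_fin]
      omega
    rw [hc, one_div, inv_mul_le_iff₀ hD']
    exact_mod_cast h1
  · intro c hc
    by_contra hno
    apply hc
    simp only [Set.mem_ofPred_eq, not_exists, not_forall, not_not] at hno
    set z : Pairs n (𝓞 E) := (fun j => algebraMap (𝓞 K) (𝓞 E) (vec ω c (Sum.inl j)),
      fun j => algebraMap (𝓞 K) (𝓞 E) (vec ω c (Sum.inr j))) with hz
    have hzv : toV z = fun i => algebraMap (𝓞 K) (𝓞 E) (vec ω c i) := by
      funext i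
      rcases i with j | j <;> rfl
    have key := good_pair (R := 𝓞 E) (k := E) hB hn hodd hD hρ (z := z) (fun s => by
        obtain ⟨P, hP, h⟩ := hno s
        refine ⟨P, ⟨hP.1.1, hP.1.2.1, hP.1.2.2.1, hP.2⟩, ?_⟩
        rw [hzv]
        exact h)
    have e1 : poly E z.1 = (polQ ω c).map (algebraMap K E) := by
      rw [poly, polQ, Polynomial.map_sum]
      refine Finset.sum_congr rfl fun j _ => ?_
      rw [Polynomial.map_mul, Polynomial.map_pow, map_C, map_X, hz,
        ← IsScalarTower.algebraMap_apply, ← IsScalarTower.algebraMap_apply]
    have e2 : poly E z.2 = (polR ω c).map (algebraMap K E) := by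
      rw [poly, polR, Polynomial.map_sum]
      refine Finset.sum_congr rfl fun j _ => ?_
      rw [Polynomial.map_mul, Polynomial.map_pow, map_C, map_X, hz,
        ← IsScalarTower.algebraMap_apply, ← IsScalarTower.algebraMap_apply]
    rw [e1, e2] at key
    exact key

theorem countable_poly (E : Type) [Field E] (h : Countable E) : Countable (E[X] × E[X]) := by
  have h1 : Countable E[X] := by
    rw [← Cardinal.mk_le_aleph0_iff]
    refine Polynomial.cardinalMk_le_max.trans ?_
    rw [max_le_iff]
    exact ⟨Cardinal.mk_le_aleph0_iff.2 h, le_rfl⟩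
  infer_instance

/-- For ALL finite extensions `E` of `K` and ALL bases over `E` the proportion of the `w` in `S M` for which
`c w` is not good tends to zero, `M → ∞`. -/
def Usually {K : Type} [Field K] {J : Type} [Fintype J] (ω : Module.Basis J ℤ (𝓞 K)) (n : ℕ)
    (Ω : Type) (S : ℕ → Finset Ω) (c : Ω → Ix n J → ℤ) : Prop :=
  ∀ E : IntermediateField K (AlgebraicClosure K), FiniteDimensional K E →
    ∀ a b : Polynomial E, Pb.Base a b → ∀ ε : ℝ, 0 < ε → ∃ M₀ : ℕ, ∀ M : ℕ, M₀ ≤ M →
      (({w : Ω | w ∈ S M ∧ ¬ GoodOver ω E a b (c w)}.ncard : ℕ) : ℝ) ≤ ε * (S M).card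

theorem result {K : Type} [Field K] [NumberField K] {J : Type} [Fintype J] [DecidableEq J]
    (ω : Module.Basis J ℤ (𝓞 K)) {n : ℕ} (hn : 5 ≤ n) (hodd : ¬ 2 ∣ n) : Robust (Usually ω n) := by
  have hne : Nonempty (Ix n J) := by
    have : Nonempty J := ω.index_nonempty
    exact ⟨(Sum.inl 0, Classical.arbitrary J)⟩
  refine robust_ext (K := K) (fun E [Field E] => E[X] × E[X])
    (fun E [Field E] hE => countable_poly E hE)
    (fun E [Field E] [Algebra K E] t c => Pb.Base t.1 t.2 → GoodOver ω E t.1 t.2 c)
    (fun E [Field E] [NumberField E] [Algebra K E] t => ?_) _ fun Ω S c hR => ?_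
  · by_cases hB : Pb.Base t.1 t.2
    · refine ((very ω hn hodd E hB).mono ?_).strong
      intro c hc hg
      exact hc fun _ => hg
    · refine (veryNull_empty.mono ?_).strong
      intro c hc
      exact hc fun h => absurd h hB
  · intro E hE a b hB ε hε
    obtain ⟨M₀, hM⟩ := hR E hE (a, b) ε hε
    refine ⟨M₀, fun M hMM => le_trans ?_ (hM M hMM)⟩
    refine Nat.cast_le.2 (Set.ncard_le_ncard ?_ ((S M).finite_toSet.subset fun n hn => hn.1))
    rintro w ⟨h5, h6⟩
    exact ⟨h5, fun h7 => h6 (h7 hB)⟩

end Pool.Agent.Results.MP_17a657_ag.RobustPullbacks
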