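import Pool.Agent.Run7.h283.PR.Base

/-!
# Divisors on twisted fibrations in products of curves over a finite field

Let `k` be a finite field of odd characteristic with `q` elements, `K = k(t)`, and let `f_1, ..., f_n`, `n ≥ 1`,
be polynomials in the following families: `f_i` is monic in `x` of degree `2 g_i + 1` over `k[t]` without
term in `x ^ (2 g_i)`, the coefficient of `x ^ j` has degree at most `2 N_i (2 g_i + 1 - j)`, `N_i ≥ 1`, `g_i ≥ 1`,
the discriminants of the `f_i` are squarefree and pairwise coprime, and the reductions of the `f_i` at infinity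
are irreducible. For `D` in `k[t]`, squarefree, prime to the discriminants, of degree `m` with leading
coefficient `u`, let `X_D` be a smooth projective variety of dimension `n + 1` over `k` with a flat morphism to the
projective line whose generic fibre is the product of the curves `D(t) y ^ 2 = f_i(x, t)`; for `n = 1` these are
surfaces, for `g_i = 1` fibrations in abelian varieties. Let `A_D` be the Albanese variety of the
generic fibre, the product of the Jacobians `J_i` of these curves.

## Tate classes

The Tate classes in `H ^ 2 (X_D, Q_ℓ(1))` have three parts: the classes in the fibres (which are algebraic),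
the classes from divisors on the generic fibre (algebraic by the theorem of Zarhin on endomorphisms of abelian
varieties over `K`) and the part in `H ^ 1 (P ^ 1, R ^ 1)`, of dimension
`r(D) = rank A_D(K) + corank Sha(A_D)[ℓ ^ ∞]`, the corank of the `ℓ`-primary Selmer group of `A_D`, of which the
divisors give the part `rank A_D(K)` (Tate, Shioda, Geisser). So the problem for `X_D` and one `ℓ`, for
instance `ℓ = 2`, says that `rank A_D(K) = r(D)`; it implies the same for all `ℓ` (Tate, Milne, Kato, Trihan,
Geisser). Here `r(D)` is defined by its Selmer groups, as the largest `r` such that `#Sel(A_D, 2 ^ l)` is at least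
`2 ^ (r l)` divided by a constant, for all `l`. The elements of `Sel(A_D, 2 ^ l)` are the tuples of elements of
the `Sel(J_i, 2 ^ l)`, that is classes of continuous cocycles of the absolute Galois group of `K` with values in
`J_i[2 ^ l]` which become zero in `H ^ 1 (K_v, J_i)` for all places `v`.

Let `2 ^ a(D) = #A_D(K) / 2 A_D(K) * #Sha(A_D)[2]`. As `A_D(K)` has no element of order two (proved here) this is
`2 ^ rank A_D(K) * #Sha(A_D)[2]`, and for `n = 1` it is `2 ^ rank A_D(K) * #Br(X_D)[2]`.

## Theorem

Fix `q`, the `f_i` and `u`, and let `m → ∞`. At least `c q ^ m` of the `D` of degree `m` with leading coefficient `u` are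
admissible, `c > 0`.
1. For all `D`: `r(D) ≤ a(D)`, more precisely `#Sel(A_D, 2 ^ l) ≤ 2 ^ (a(D) l)` for all `l`.
2. `a(D)` has the limit law of the sum of `n` independent variables with the law of Poonen and Rains
   (`d` with the probability `w(d) / W`, `w(d) = ∏_{j = 1} ^ d 2 / (2 ^ j - 1)`, `W = 4.76846...`), and the average of
   `φ(a(D))` tends to the expectation for this law if `|φ(s)| ≤ C y ^ s`. In particular the average of
   `(#A_D(K) / 2 A_D(K) * #Sha(A_D)[2]) ^ j` tends to `(∏_{e = 1} ^ j (1 + 2 ^ e)) ^ n`, it is `3 ^ n` for `j = 1`.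
3. The average of the number `r(D)` is at most `1.2646 n`, and the average of `2 ^ (j r(D))` is at most
   `(∏_{e = 1} ^ j (1 + 2 ^ e)) ^ n + ε`, for all large `m`.
4. For at least `0.2097 ^ n` of all `D` we have `a(D) = r(D) = 0`; then `A_D(K)` is uniquely divisible by two and
   the 2-primary part of `Sha(A_D)` is zero, even if no condition at infinity is imposed in its definition.
5. For given `g` with `(2 g + 1)!` prime to the characteristic and every nonzero `Δ` a positive proportion of
   all the `f` of genus `g` is in the family with discriminant prime to `Δ`, as `N → ∞`.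

So the Tate conjecture for divisors holds for the varieties `X_D` for at least `0.2097 ^ n` of all `D`, there is no
other divisor class than those of the fibres and of the generic fibre, and for all the other twists the number of
the Tate classes which are not known to be algebraic is controlled in the average. The Hodge numbers of the
varieties tend to infinity while `k` is fixed. For `g = N = n = 1` the surface `y ^ 2 = f(x, t)` is a rational
elliptic surface `Y`, for which the Tate conjecture is known; as the rank and the corank of `Sha` are additive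
in the quadratic extension `K(√D)`, the theorem then gives the Tate conjecture for the pull-backs of `Y` to
`20.97` percent of all the hyperelliptic curves `s ^ 2 = D(t)`.

## Proof

Project JPL of helper784 (joint law of the 2-Selmer groups of several curves twisted by the same `D`, with
all moments), which rests on projects PRL (helper286) and TG (helper784), and the results of helper886 on `Sha[2]` and
`Sel(J, 2 ^ l)`; part 5: helper908 and project PJ. See `Results/MP_60d5ce_nt/ExactLawOfTwists.lean` and
`Results/MP_021685_ag/TwistsOfSurfaces.lean` for descriptions and names of the authors. Definitions: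
`Run7/h283/PR/Base.lean`, `N874/Jac/Def.lean`. This file: helper283.
-/

set_option autoImplicit false
set_option linter.all false

namespace Pool.Agent.Results.MP_17a657_ag.TwistedFibrations

open Polynomial Filter IsDedekindDomain
open scoped Classical Topology
open Pool.Agent.N874.Jac (J mapJ Cochain Cocycle Coboundary power TrivialOver TrivialAtPrimes
  UniquelyTwoDivisible ShaTwoTrivial)
open Run7.h283.PR (BrauerTwo Selmer discriminant HasHeight InFamily Twists twist average prob weight)

section alb

variable (k : Type) {K : Type} [Field k] [Field K] [Algebra k[X] K] [IsFractionRing k[X] K] {n : ℕ}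

/-- The group `A(K)` for the Albanese variety `A` of the product of the curves `y ^ 2 = F_i(x)` over `K`,
the product of their Jacobians (written multiplicatively). -/
abbrev AlbPoints (F : Fin n → K[X]) : Type := ∀ i, J (F i) K

/-- The order of `A(K) / 2 A(K)` times the order of `Sha(A)[2]`. -/
noncomputable def albSize (F : Fin n → K[X]) : ℕ :=
  (powMonoidHom 2 : AlbPoints F →* AlbPoints F).range.index * Nat.card (∀ i, BrauerTwo k (F i))

/-- Its binary logarithm. -/
noncomputable def albLog (F : Fin n → K[X]) : ℕ := Nat.log 2 (albSize k F)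

/-- The Selmer group `Sel(A, 2 ^ l)`, as a set. -/
abbrev AlbSelmer (l : ℕ) (F : Fin n → K[X]) : Type := ∀ i, Selmer k l (F i)

/-- The corank of the 2-primary Selmer group of `A`: the largest `r` such that `2 ^ (r l)` is at most a
constant times the order of `Sel(A, 2 ^ l)`, for all `l`. -/
noncomputable def albCorank (F : Fin n → K[X]) : ℕ :=
  sSup {r | ∃ C : ℝ, ∀ l : ℕ, (2 : ℝ) ^ (r * l) ≤ C * (Nat.card (AlbSelmer k l F) : ℝ)}

/-- `A(K)` is uniquely divisible by two and the 2-primary part of `Sha(A)` is zero, where the classes are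
zero over the completions at the maximal ideals of `k[t]`, without a condition at infinity. -/
structure NoTwoPart (F : Fin n → K[X]) : Prop where
  divisible : Function.Bijective fun P : AlbPoints F => P ^ 2
  sha : ∀ i, ShaTwoTrivial (F i) k[X]

end alb

section defs

variable {k : Type} [Field k] (K : Type) [Field K] [Algebra k[X] K] [IsFractionRing k[X] K] {n : ℕ}

/-- The equations of the twisted curves `D y ^ 2 = f_i(x)` over `K`. -/
noncomputable def twists (f : Fin n → k[X][X]) (D : k[X]) (i : Fin n) : K[X] := twist K (f i) D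

/-- The number `a(D)`. -/
noncomputable def excess (f : Fin n → k[X][X]) (D : k[X]) : ℕ := albLog k (twists K f D)

/-- The number `r(D)` of the Tate classes. -/
noncomputable def corank (f : Fin n → k[X][X]) (D : k[X]) : ℕ := albCorank k (twists K f D)

end defs

/-- The expectation of `φ(d_1 + ... + d_n)` for `n` independent variables with the law `prob`. -/
noncomputable def expectationOfSum (n : ℕ) (φ : ℕ → ℝ) : ℝ :=
  ∑' d : Fin n → ℕ, φ (∑ i, d i) * ∏ i, prob (d i)

section proofs

variable {k : Type} [Field k] {K : Type} [Field K] [Algebra k[X] K] [IsFractionRing k[X] K] {n : ℕ}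

/-- The index of the squares of a product of groups (helper908). -/
theorem index_pi {G : Fin n → Type} [∀ i, CommGroup (G i)] :
    (powMonoidHom 2 : (∀ i, G i) →* ∀ i, G i).range.index =
      ∏ i, (powMonoidHom 2 : G i →* G i).range.index := by
  let φ : (∀ i, G i) →* ∀ i, G i ⧸ (powMonoidHom 2 : G i →* G i).range :=
    { toFun := fun x i => (QuotientGroup.mk (x i) : G i ⧸ (powMonoidHom 2 : G i →* G i).range)
      map_one' := funext fun i => rfl
      map_mul' := fun x y => funext fun i => rfl }
  have hker : φ.ker = (powMonoidHom 2 : (∀ i, G i) →* ∀ i, G i).range := by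
    ext x
    constructor
    · intro hx
      have h1 : ∀ i, ∃ y : G i, y ^ 2 = x i := by
        intro i
        have h2 : (QuotientGroup.mk (x i) : G i ⧸ (powMonoidHom 2 : G i →* G i).range) = 1 :=
          congrFun hx i
        exact (QuotientGroup.eq_one_iff _).1 h2
      choose y hy using h1
      exact ⟨y, funext hy⟩
    · rintro ⟨y, rfl⟩
      refine funext fun i => ?_
      exact (QuotientGroup.eq_one_iff _).2 ⟨y i, rfl⟩
  have hsurj : Function.Surjective φ := by
    intro z
    choose x hx using fun i => QuotientGroup.mk_surjective (z i)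
    exact ⟨x, funext hx⟩
  rw [← hker, Subgroup.index_ker, MonoidHom.range_eq_top.2 hsurj, Subgroup.card_top, Nat.card_pi]
  rfl

theorem albSize_eq (F : Fin n → K[X]) : albSize k F = ∏ i, Run7.h283.PR.size k (F i) := by
  unfold albSize Run7.h283.PR.size
  rw [Finset.prod_mul_distrib]
  congr 1
  · exact index_pi
  · exact Nat.card_pi

variable [Finite k] {g N : Fin n → ℕ} {f : Fin n → k[X][X]}

theorem albSize_pow {r : Fin n → k[X]} (h : Run7.h784.JP.JF g N r f) {u : k} (hu : u ≠ 0) {m : ℕ}
    {D : k[X]} (hD : D ∈ Twists g f u m) :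
    albSize k (twists K f D) = 2 ^ ∑ i, Run7.h283.PR.sizes K f D i := by
  rw [albSize_eq, ← Finset.prod_pow_eq_pow_sum]
  refine Finset.prod_congr rfl fun i _ => ?_
  rw [Run7.h283.PR.sizes_eq h hu hD i]
  exact Run7.h283.PR.size_pow h hu hD i

theorem excess_eq {r : Fin n → k[X]} (h : Run7.h784.JP.JF g N r f) {u : k} (hu : u ≠ 0) {m : ℕ}
    {D : k[X]} (hD : D ∈ Twists g f u m) : excess K f D = ∑ i, Run7.h283.PR.sizes K f D i := by
  unfold excess albLog
  rw [albSize_pow h hu hD, Nat.log_pow (by norm_num)]

theorem sel_le {r : Fin n → k[X]} (h : Run7.h784.JP.JF g N r f) {u : k} (hu : u ≠ 0) {m : ℕ}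
    {D : k[X]} (hD : D ∈ Twists g f u m) (l : ℕ) : Finite (AlbSelmer k l (twists K f D)) ∧
    Nat.card (AlbSelmer k l (twists K f D)) ≤ 2 ^ (excess K f D * l) := by
  haveI : ∀ i, Finite (Selmer k l (twists K f D i)) := fun i =>
    (Run7.h283.PR.sel_le (K := K) h hu hD i l).1
  refine ⟨inferInstance, ?_⟩
  rw [Nat.card_pi, excess_eq h hu hD, Finset.sum_mul, ← Finset.prod_pow_eq_pow_sum]
  exact Finset.prod_le_prod' fun i _ => (Run7.h283.PR.sel_le (K := K) h hu hD i l).2

/-- A bound for a corank. -/
theorem sSup_le_of {a : ℕ} {c : ℕ → ℕ} (hc : ∀ l, c l ≤ 2 ^ (a * l)) :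
    sSup {r : ℕ | ∃ C : ℝ, ∀ l : ℕ, (2 : ℝ) ^ (r * l) ≤ C * (c l : ℝ)} ≤ a := by
  refine csSup_le' ?_
  rintro s ⟨C, hC⟩
  by_contra hs
  push Not at hs
  obtain ⟨n, hn⟩ := pow_unbounded_of_one_lt C (one_lt_two : (1 : ℝ) < 2)
  have h1 := hC n
  have h5 : (c n : ℝ) ≤ (2 : ℝ) ^ (a * n) := by exact_mod_cast hc n
  have h6 : (0 : ℝ) < (2 : ℝ) ^ (s * n) := by positivity
  have hC0 : 0 < C := by
    by_contra h7
    push Not at h7
    have h8 : C * (c n : ℝ) ≤ 0 := mul_nonpos_of_nonpos_of_nonneg h7 (Nat.cast_nonneg _)
    linarith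
  have h7 : (2 : ℝ) ^ (s * n) ≤ C * (2 : ℝ) ^ (a * n) :=
    h1.trans (mul_le_mul_of_nonneg_left h5 hC0.le)
  have h8 : (2 : ℝ) ^ (a * n) * 2 ^ n ≤ (2 : ℝ) ^ (s * n) := by
    rw [← pow_add]
    refine pow_le_pow_right₀ one_le_two ?_
    have h9 : a + 1 ≤ s := hs
    calc a * n + n = (a + 1) * n := by ring
      _ ≤ s * n := Nat.mul_le_mul_right _ h9
  have h9 : (0 : ℝ) < (2 : ℝ) ^ (a * n) := by positivity
  have h10 : (2 : ℝ) ^ (a * n) * 2 ^ n ≤ (2 : ℝ) ^ (a * n) * C := by
    rw [mul_comm ((2 : ℝ) ^ (a * n)) C]
    exact h8.trans h7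
  have h11 := le_of_mul_le_mul_left h10 h9
  linarith

theorem corank_le {r : Fin n → k[X]} (h : Run7.h784.JP.JF g N r f) {u : k} (hu : u ≠ 0) {m : ℕ}
    {D : k[X]} (hD : D ∈ Twists g f u m) : corank K f D ≤ excess K f D :=
  sSup_le_of fun l => (sel_le h hu hD l).2

end proofs

/-- The expectation of a power. -/
theorem expectation_pow (n j : ℕ) : expectationOfSum n (fun s => (2 : ℝ) ^ (j * s)) =
    (∏ e ∈ Finset.Icc 1 j, (1 + (2 : ℝ) ^ e)) ^ n := by
  have h1 := Run7.h784.JP.tsum_pi (ι := Fin n) (fun _ d => prob d * ((2 : ℝ) ^ j) ^ d)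
    (fun _ d => mul_nonneg (Run7.h283.PR.prob_nonneg d) (by positivity))
    (fun _ => Run7.h283.PR.prob_summable (Run7.h547.PL.sumW (2 ^ j)))
  unfold expectationOfSum
  rw [Run7.h283.PR.prob_sum, Run7.h886.PL.numbers.2.1 j, Finset.prod_const, Finset.card_univ,
    Fintype.card_fin] at h1
  rw [← h1]
  refine tsum_congr fun d => ?_
  rw [Finset.prod_mul_distrib, mul_comm]
  congr 1
  show (2 : ℝ) ^ (j * ∑ i, d i) = _
  rw [Finset.mul_sum, ← Finset.prod_pow_eq_pow_sum]
  exact Finset.prod_congr rfl fun i _ => by rw [← pow_mul]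

theorem average_sum {k : Type} [Field k] {S : Set k[X]} (hS : S.Finite) {n : ℕ}
    (φ : k[X] → Fin n → ℝ) :
    average S (fun D => ∑ i, φ D i) = ∑ i, average S fun D => φ D i := by
  unfold average
  rw [← Finset.sum_div, finsum_mem_eq_finite_toFinset_sum _ hS, Finset.sum_comm]
  congr 1
  exact Finset.sum_congr rfl fun i _ => (finsum_mem_eq_finite_toFinset_sum _ hS).symm

/-- **Theorem.** The first part: the constants of the limit law. The second part: let `k` be a finite field of
odd characteristic with `q` elements, `K = k(t)`, let `f_1, ..., f_n`, `n ≥ 1`, be in the families, with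
pairwise coprime discriminants, and let `A_D` be the product of the Jacobians of the curves
`D y ^ 2 = f_i(x)` over `K`, the Albanese variety of the generic fibre of `X_D`. There are at least `c q ^ m`
admissible `D` of degree `m` with leading coefficient `u`. For all admissible `D`: `A_D(K)` has no
element of order two, `2 ^ a(D)` is the order of `A_D(K) / 2 A_D(K)` times the order of `Sha(A_D)[2]`, the order of
`Sel(A_D, 2 ^ l)` is at most `2 ^ (a(D) l)`, so the corank `r(D)` of the 2-primary Selmer group, the number of the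
Tate classes of `X_D` beyond those of the fibres and of the generic fibre, is at most `a(D)`, and if `a(D) = 0`,
then `A_D(K)` is uniquely divisible by two and `Sha(A_D)` has no 2-primary part. The average of `φ(a(D))` tends to the
expectation of `φ(d_1 + ... + d_n)` for independent variables with the law of Poonen and Rains, if `φ` has
at most exponential growth. The average of `r(D)` is at most `1.2646 n`, the average of `2 ^ (j r(D))` is at most
`((1 + 2) (1 + 4) ... (1 + 2 ^ j)) ^ n + ε`, and for at least `0.2097 ^ n` of the `D` both numbers are zero, for all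
large `m`. The third part: many `f` are in the families. -/
theorem result :
    (|∑' d, weight d - 4.76846| < 0.00001 ∧
      (∀ n j : ℕ, expectationOfSum n (fun s => (2 : ℝ) ^ (j * s)) =
        (∏ e ∈ Finset.Icc 1 j, (1 + (2 : ℝ) ^ e)) ^ n) ∧
      ∑' d, prob d * (-1 : ℝ) ^ d = 0 ∧ |∑' d, prob d * (d : ℝ) - 1.2645| < 0.0001) ∧
    ∀ (k : Type) [Field k] [Finite k], (2 : k) ≠ 0 →
      (∀ (n : ℕ) (g N : Fin n → ℕ) (f : Fin n → k[X][X]), 1 ≤ n →
        (∀ i, 1 ≤ g i) → (∀ i, 1 ≤ N i) → (∀ i, InFamily (g i) (N i) (f i)) →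
        (∀ i j, i ≠ j → IsCoprime (discriminant (g i) (f i)) (discriminant (g j) (f j))) →
        (∃ c : ℝ, 0 < c ∧ ∀ᶠ m : ℕ in atTop, ∀ u : k, u ≠ 0 →
          c * (Nat.card k : ℝ) ^ m ≤ ((Twists g f u m).ncard : ℝ)) ∧
        ∀ (K : Type) [Field K] [Algebra k[X] K] [IsFractionRing k[X] K] (u : k), u ≠ 0 →
          (∀ (m : ℕ), ∀ D ∈ Twists g f u m,
            (∀ P : AlbPoints (twists K f D), P ^ 2 = 1 → P = 1) ∧
            albSize k (twists K f D) = 2 ^ excess K f D ∧
            (∀ l : ℕ, Finite (AlbSelmer k l (twists K f D)) ∧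
              Nat.card (AlbSelmer k l (twists K f D)) ≤ 2 ^ (excess K f D * l)) ∧
            corank K f D ≤ excess K f D ∧
            (excess K f D = 0 → NoTwoPart k (twists K f D))) ∧
          (∀ φ : ℕ → ℝ, (∃ C y : ℝ, ∀ s, |φ s| ≤ C * y ^ s) →
            Tendsto (fun m => average (Twists g f u m) fun D => φ (excess K f D)) atTop
              (𝓝 (expectationOfSum n φ))) ∧
          (∀ᶠ m : ℕ in atTop,
            average (Twists g f u m) (fun D => (corank K f D : ℝ)) ≤ 1.2646 * n) ∧
          (∀ (j : ℕ) (ε : ℝ), 0 < ε → ∀ᶠ m : ℕ in atTop,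
            average (Twists g f u m) (fun D => (2 : ℝ) ^ (j * corank K f D)) ≤
              (∏ e ∈ Finset.Icc 1 j, (1 + (2 : ℝ) ^ e)) ^ n + ε) ∧
          ∀ᶠ m : ℕ in atTop, (0.2097 : ℝ) ^ n * ((Twists g f u m).ncard : ℝ) ≤
            (({D ∈ Twists g f u m | excess K f D = 0 ∧ corank K f D = 0} : Set k[X]).ncard : ℝ)) ∧
      ∀ g : ℕ, 1 ≤ g → (((2 * g + 1).factorial : ℕ) : k) ≠ 0 → ∀ Δ : k[X], Δ ≠ 0 →
        ∃ c : ℝ, 0 < c ∧ ∀ᶠ N : ℕ in atTop, 0 < {f : k[X][X] | HasHeight g (2 * N) f}.ncard ∧
          c * ({f : k[X][X] | HasHeight g (2 * N) f}.ncard : ℝ) ≤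
            ({f : k[X][X] | InFamily g N f ∧ IsCoprime Δ (discriminant g f)}.ncard : ℝ) := by
  obtain ⟨n1, n2, n3, n4⟩ := Run7.h886.PL.numbers
  refine ⟨⟨n1, expectation_pow, ?_, ?_⟩, fun k _ _ h2 => ⟨fun n g N f hn hg hN hf hc => ?_,
    fun g hg hp Δ hΔ => Run7.h283.PR.many_fam g hg hp Δ hΔ⟩⟩
  · rw [Run7.h283.PR.prob_sum, n3]
  · rw [Run7.h283.PR.prob_sum]
    exact n4
  · haveI : Nonempty (Fin n) := ⟨⟨0, hn⟩⟩
    have h := Run7.h283.PR.jf h2 hg hN hf hc
    refine ⟨Run7.h886.PL.size_all h, fun K _ _ _ u hu => ?_⟩
    have hfin : ∀ m, (Twists g f u m).Finite := fun m => Run7.h784.JP.twJ_fin h hu m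
    have hexc : ∀ m, ∀ D ∈ Twists g f u m, excess K f D = ∑ i, Run7.h283.PR.sizes K f D i :=
      fun m D hD => excess_eq h hu hD
    have hmean : ∀ φ : (Fin n → ℕ) → ℝ, Run7.h283.PR.HasGrowth φ →
        Tendsto (fun m => average (Twists g f u m) fun D => φ (Run7.h283.PR.sizes K f D)) atTop
          (𝓝 (Run7.h283.PR.expectation φ)) := fun φ hφ =>
      Run7.h886.PL.mean_of K h hu (Run7.h283.PR.sizes K f)
        (fun m D hD i => Run7.h283.PR.sizes_eq h hu hD i) φ hφ
    have hlim : ∀ φ : ℕ → ℝ, (∃ C y : ℝ, ∀ s, |φ s| ≤ C * y ^ s) →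
        Tendsto (fun m => average (Twists g f u m) fun D => φ (excess K f D)) atTop
          (𝓝 (expectationOfSum n φ)) := by
      rintro φ ⟨C, y, hφ⟩
      refine (hmean (fun d => φ (∑ i, d i)) ⟨C, y, fun d => hφ _⟩).congr fun m => ?_
      unfold average
      congr 1
      refine finsum_mem_congr rfl fun D hD => ?_
      show φ (∑ i, Run7.h283.PR.sizes K f D i) = φ (excess K f D)
      rw [hexc m D hD]
    refine ⟨fun m D hD => ?_, hlim, ?_, fun j ε hε => ?_, ?_⟩
    · refine ⟨fun P hP => funext fun i => ?_, ?_, sel_le h hu hD, corank_le h hu hD, fun h0 => ?_⟩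
      · exact (Run7.h886.PL.one K h hu hD i).2.1 (P i) (congrFun hP i)
      · rw [hexc m D hD]
        exact albSize_pow h hu hD
      · rw [hexc m D hD, Finset.sum_eq_zero_iff] at h0
        have h1 : ∀ i, UniquelyTwoDivisible (twists K f D i) ∧
            ShaTwoTrivial (twists K f D i) k[X] := by
          intro i
          have h3 := h0 i (Finset.mem_univ i)
          rw [Run7.h283.PR.sizes_eq h hu hD i] at h3
          obtain ⟨t1, t2, t3⟩ := (Run7.h886.PL.one K h hu hD i).2.2.2 h3
          exact ⟨t1, t2⟩
        refine ⟨⟨fun x y hxy => funext fun i => (h1 i).1.1 (congrFun hxy i), fun y => ?_⟩,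
          fun i => (h1 i).2⟩
        choose x hx using fun i => (h1 i).1.2 (y i)
        exact ⟨x, funext hx⟩
    · have h0 : (0 : ℝ) < 1.2646 - Run7.h286.PL.Lw fun d => (d : ℝ) := by
        have := (abs_lt.1 n4).2
        linarith
      have h3 : ∀ i : Fin n, ∀ᶠ m : ℕ in atTop,
          average (Twists g f u m) (fun D => (Run7.h283.PR.sizes K f D i : ℝ)) ≤ 1.2646 := by
        intro i
        have h1 : Run7.h283.PR.HasGrowth fun d : Fin n → ℕ => (d i : ℝ) := by
          refine ⟨1, 2, fun d => ?_⟩
          have h3 : d i ≤ ∑ j, d j := Finset.single_le_sum (fun _ _ => Nat.zero_le _)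
            (Finset.mem_univ i)
          have h4 : (d i : ℝ) < 2 ^ d i := by exact_mod_cast Nat.lt_two_pow_self
          rw [abs_of_nonneg (Nat.cast_nonneg _), one_mul]
          exact h4.le.trans (pow_le_pow_right₀ one_le_two h3)
        have h4 : Run7.h283.PR.expectation (fun d : Fin n → ℕ => (d i : ℝ)) =
            Run7.h286.PL.Lw fun d => (d : ℝ) :=
          Run7.h283.PR.expectation_one i (fun d => (d : ℝ)) (fun d => Nat.cast_nonneg _) (by
            simpa using Run7.h547.PL.sumD 1)
        have h5 := (hmean _ h1).eventually (Iic_mem_nhds (lt_add_of_pos_right _ h0))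
        rw [h4, add_sub_cancel] at h5
        exact h5
      filter_upwards [eventually_all.2 h3] with m h4
      calc average (Twists g f u m) (fun D => (corank K f D : ℝ))
          ≤ average (Twists g f u m) (fun D => ∑ i, (Run7.h283.PR.sizes K f D i : ℝ)) := by
            refine Run7.h283.PR.average_le (hfin m) fun D hD => ?_
            have h6 := corank_le (K := K) h hu hD
            rw [hexc m D hD] at h6
            exact_mod_cast h6
        _ = ∑ i, average (Twists g f u m) (fun D => (Run7.h283.PR.sizes K f D i : ℝ)) :=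
            average_sum (hfin m) _
        _ ≤ ∑ i : Fin n, (1.2646 : ℝ) := Finset.sum_le_sum fun i _ => h4 i
        _ = 1.2646 * n := by
            rw [Finset.sum_const, Finset.card_univ, Fintype.card_fin, nsmul_eq_mul, mul_comm]
    · have h3 := (hlim (fun s => (2 : ℝ) ^ (j * s)) ⟨1, 2 ^ j, fun s => by
        rw [abs_of_nonneg (by positivity), one_mul, ← pow_mul]⟩).eventually
          (Iic_mem_nhds (lt_add_of_pos_right _ hε))
      rw [expectation_pow] at h3
      filter_upwards [h3] with m h4
      refine le_trans (Run7.h283.PR.average_le (hfin m) fun D hD => ?_) h4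
      exact pow_le_pow_right₀ one_le_two (Nat.mul_le_mul_left _ (corank_le h hu hD))
    · filter_upwards [Run7.h886.PL.zero_prop K Run7.h886.PL.jfinm h hu] with m hm
      rw [Fintype.card_fin] at hm
      refine hm.trans ?_
      have hsub : ({D ∈ Run7.h784.JP.TwJ g f u m |
          ∀ i, Run7.h286.PL.rkJ K ((f i).scaleRoots D) = 0} : Set k[X]) ⊆
          {D ∈ Twists g f u m | excess K f D = 0 ∧ corank K f D = 0} := by
        rintro D ⟨h3, h4⟩
        have h5 : excess K f D = 0 := by
          rw [hexc m D h3]
          exact Finset.sum_eq_zero fun i _ => by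
            rw [Run7.h283.PR.sizes_eq h hu h3 i]
            exact h4 i
        exact ⟨h3, h5, Nat.le_zero.1 ((corank_le h hu h3).trans h5.le)⟩
      exact_mod_cast Set.ncard_le_ncard hsub ((hfin m).subset fun D hD => hD.1)

end Pool.Agent.Results.MP_17a657_ag.TwistedFibrations
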